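import Mathlib

set_option autoImplicit false
open Set Topology Filter

namespace Pool.Agent.H.MP_3ae40e_gt

variable {X : Type} [TopologicalSpace X] [CompactSpace X] [T2Space X]

def Ct (A : Set X) : Prop := IsClosed A ∧ IsConnected A

abbrev cc (F : Set X) (a : X) : Set X := connectedComponentIn F a

omit [CompactSpace X] [T2Space X] in
lemma cc_ct {L : Set X} (hL : IsClosed L) {p : X} (hp : p ∈ L) : Ct (cc L p) :=
  ⟨isClosed_of_closure_subset (IsPreconnected.subset_connectedComponentIn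
    isPreconnected_connectedComponentIn.closure (subset_closure (mem_connectedComponentIn hp))
    (hL.closure_subset_iff.2 (connectedComponentIn_subset _ _))),
    isConnected_connectedComponentIn_iff.2 hp⟩

omit [CompactSpace X] [T2Space X] in
lemma Ct.union {A B : Set X} (h : Ct A) (k : Ct B) {x : X} (a : x ∈ A) (b : x ∈ B) : Ct (A ∪ B) :=
  ⟨h.1.union k.1, h.2.union ⟨x, a, b⟩ k.2⟩

omit [CompactSpace X] in
lemma ct_one (p : X) : Ct {p} := ⟨isClosed_singleton, isConnected_singleton⟩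

lemma wire {K P Q : Set X} (hK : IsClosed K) (hP : IsClosed P) (hQ : IsClosed Q)
    (h : ∀ p ∈ K ∩ P, Disjoint (cc K p) Q) : ∃ a b, IsClosed a ∧ IsClosed b ∧ Disjoint a b ∧
      a ∪ b = K ∧ Disjoint a Q ∧ Disjoint b P := by
  haveI : CompactSpace K := isCompact_iff_compactSpace.1 hK.isCompact
  obtain ⟨Z, z1, z2, z3⟩ : ∃ Z : Set K, IsClopen Z ∧ Subtype.val ⁻¹' P ⊆ Z ∧
      Disjoint Z (Subtype.val ⁻¹' Q) := by
    refine (hP.preimage continuous_subtype_val).isCompact.induction_on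
      (p := fun s => ∃ Z : Set K, IsClopen Z ∧ s ⊆ Z ∧ Disjoint Z (Subtype.val ⁻¹' Q))
      ⟨∅, isClopen_empty, subset_rfl, by simp⟩ (fun s t l ⟨Z, a, b, c⟩ => ⟨Z, a, l.trans b, c⟩)
      (fun s t ⟨Z, a, b, c⟩ ⟨W, d, e, f⟩ => ⟨Z ∪ W, a.union d, union_subset_union b e,
        disjoint_union_left.2 ⟨c, f⟩⟩) fun p hp => ?_
    obtain ⟨t, ht⟩ := (hQ.preimage (continuous_subtype_val (p := (· ∈ K)))).isCompact.elim_finite_subfamily_closed
      (fun Z : {Z : Set K // IsClopen Z ∧ p ∈ Z} => Z.1) (fun Z => Z.2.1.1) (by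
        rw [← connectedComponent_eq_iInter_isClopen p]
        refine eq_empty_of_forall_notMem fun z hz => disjoint_left.1 (h p ⟨p.2, hp⟩) ?_ hz.1
        rw [cc, connectedComponentIn_eq_image p.2]
        exact ⟨z, hz.2, rfl⟩)
    have hZ : IsClopen (⋂ Z ∈ t, (Z : Set K)) := isClopen_biInter_finset fun Z _ => Z.2.1
    exact ⟨_, nhdsWithin_le_nhds (hZ.2.mem_nhds (mem_iInter₂.2 fun Z _ => Z.2.2)), _, hZ,
      subset_rfl, disjoint_iff_inter_eq_empty.2 (inter_comm _ _ ▸ ht)⟩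
  have e := hK.isClosedEmbedding_subtypeVal
  refine ⟨Subtype.val '' Z, Subtype.val '' Zᶜ, e.isClosedMap _ z1.1, e.isClosedMap _ z1.compl.1,
    (disjoint_image_iff e.injective).2 disjoint_compl_right, by
      rw [← image_union, union_compl_self, image_univ, Subtype.range_val], ?_, ?_⟩
  · exact disjoint_left.2 fun _ ⟨z, a, b⟩ l => disjoint_left.1 z3 a (show z.1 ∈ Q from b ▸ l)
  · exact disjoint_left.2 fun _ ⟨z, a, b⟩ l => a (z2 (show z.1 ∈ P from b ▸ l))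

omit [CompactSpace X] [T2Space X] in
lemma pre_sub {K a b : Set X} (hK : IsPreconnected K) (ha : IsClosed a) (hb : IsClosed b)
    (h : K ⊆ a ∪ b) (d : Disjoint a b) {x : X} (h1 : x ∈ K) (h2 : x ∈ a) : K ⊆ a := fun y hy =>
  (h hy).resolve_right fun l =>
    let ⟨_, _, k⟩ := isPreconnected_closed_iff.1 hK a b ha hb h ⟨x, h1, h2⟩ ⟨y, hy, l⟩
    disjoint_left.1 d k.1 k.2

lemma bump {K N : Set X} (hK : Ct K) (hN : IsClosed N) {p : X} (hp : p ∈ K ∩ N)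
    (h : cc (K ∩ N) p ⊆ interior N) : K ⊆ cc (K ∩ N) p := by
  obtain ⟨a, b, a1, b1, d, e, a2, b2⟩ := wire (hK.1.inter hN) (isClosed_singleton (x := p))
    isOpen_interior.isClosed_compl fun _ ⟨_, l⟩ => by
      rw [show _ = p from l]; exact disjoint_left.2 fun z k m => m (h k)
  have := pre_sub hK.2.2 a1 (b1.union isOpen_interior.isClosed_compl) (fun z hz => by
    by_cases l : z ∈ interior N
    · exact (e.symm.subset ⟨hz, interior_subset l⟩).imp_right Or.inl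
    · exact Or.inr (Or.inr l)) (disjoint_union_right.2 ⟨d, a2⟩) hp.1
    ((e.symm.subset hp).resolve_right fun l => disjoint_left.1 b2 l rfl)
  exact hK.2.2.subset_connectedComponentIn hp.1 (this.trans (e ▸ subset_union_left))

def Mt (P Q I : Set X) : Prop := Ct I ∧ (I ∩ P).Nonempty ∧ (I ∩ Q).Nonempty

lemma irr {J P Q : Set X} (hP : IsClosed P) (hQ : IsClosed Q) (h : Mt P Q J) :
    ∃ I ⊆ J, Mt P Q I ∧ ∀ I' ⊆ I, Mt P Q I' → I ⊆ I' := by
  refine (zorn_superset_nonempty {I | Mt P Q I} (fun c c1 c2 c3 => ?_) J h).imp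
    fun I i => ⟨i.1, i.2.1, fun I' a b => i.2.2 b a⟩
  haveI := c3.to_subtype
  have d : Directed (· ⊇ ·) fun A : c => A.1 := fun A B =>
    (c2.total A.2 B.2).elim (fun l => ⟨A, subset_rfl, l⟩) fun l => ⟨B, l, subset_rfl⟩
  have cl : ∀ A : c, IsClosed A.1 := fun A => (c1 A.2).1.1
  have m : ∀ R, IsClosed R → (∀ A : c, (A.1 ∩ R).Nonempty) → ((⋂ A : c, A.1) ∩ R).Nonempty :=
    fun R hR k => by
      rw [iInter_inter]
      exact IsCompact.nonempty_iInter_of_directed_nonempty_isCompact_isClosed _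
        (fun A B => let ⟨C, a, b⟩ := d A B
          ⟨C, inter_subset_inter_left _ a, inter_subset_inter_left _ b⟩) k
        (fun A => ((cl A).inter hR).isCompact) fun A => (cl A).inter hR
  have hc := isClosed_iInter cl
  have m1 := m P hP fun A => (c1 A.2).2.1
  refine ⟨⋂ A : c, A.1, ⟨⟨hc, m1.mono inter_subset_left, isPreconnected_closed_iff.2
    fun a b ha hb h4 ⟨x, x1, x2⟩ ⟨y, y1, y2⟩ => ?_⟩, m1, m Q hQ fun A => (c1 A.2).2.2⟩,
    fun A hA => iInter_subset (fun A : c => A.1) ⟨A, hA⟩⟩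
  by_contra k
  obtain ⟨u, v, hu, hv, u1, v1, huv⟩ := normal_separation (hc.inter ha) (hc.inter hb)
    (disjoint_left.2 fun z z1 z2 => k ⟨z, z1.1, z1.2, z2.2⟩)
  obtain ⟨n, hn⟩ := exists_subset_nhds_of_compactSpace (U := u ∪ v) d cl
    fun z hz => (hu.union hv).mem_nhds ((h4 hz).imp (fun l => u1 ⟨hz, l⟩) fun l => v1 ⟨hz, l⟩)
  obtain ⟨z, -, z1, z2⟩ := (c1 n.2).1.2.2 u v hu hv hn ⟨x, mem_iInter.1 x1 n, u1 ⟨x1, x2⟩⟩
    ⟨y, mem_iInter.1 y1 n, v1 ⟨y1, y2⟩⟩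
  exact disjoint_left.1 huv z1 z2

lemma irr_dense {I P Q : Set X} (hP : IsClosed P) (hQ : IsClosed Q) (d : Disjoint P Q)
    (h : Mt P Q I) (m : ∀ I' ⊆ I, Mt P Q I' → I ⊆ I') : I ⊆ closure (I \ (P ∪ Q)) := by
  have s : closure (I \ (P ∪ Q)) ⊆ I := h.1.1.closure_subset_iff.2 diff_subset
  by_contra n
  obtain ⟨a, b, a1, b1, ab, e, a2, b2⟩ := wire (K := closure (I \ (P ∪ Q))) isClosed_closure hP hQ
    fun p hp => disjoint_left.2 fun z z1 z2 => n ((m _ ((connectedComponentIn_subset _ _).trans s)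
      ⟨cc_ct isClosed_closure hp.1, ⟨p, mem_connectedComponentIn hp.1, hp.2⟩, z, z1, z2⟩).trans
      (connectedComponentIn_subset _ _))
  obtain ⟨x, x1, x2⟩ := h.2.1
  obtain ⟨y, y1, y2⟩ := h.2.2
  refine (pre_sub h.1.2.2 (a1.union hP) (b1.union hQ) (fun z hz => ?_) (by
    simp only [disjoint_union_left, disjoint_union_right]
    exact ⟨⟨ab, b2.symm⟩, a2, d⟩) x1 (Or.inr x2) y1).elim (disjoint_left.1 a2 · y2)
    (disjoint_left.1 d · y2)
  by_cases l : z ∈ P ∪ Q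
  · exact l.imp Or.inr Or.inr
  · exact (e.symm.subset (subset_closure ⟨hz, l⟩)).imp Or.inl Or.inl

def Tr (T : Set X) : Prop := IsCompact T ∧ IsConnected T ∧
  ∃ Z : Set X, Z ⊆ T ∧ IsCompact Z ∧ IsConnected Z ∧
    ∃ A B C : Set X, A.Nonempty ∧ B.Nonempty ∧ C.Nonempty ∧ T \ Z = A ∪ B ∪ C ∧
      closure A ∩ B = ∅ ∧ A ∩ closure B = ∅ ∧ closure A ∩ C = ∅ ∧ A ∩ closure C = ∅ ∧
      closure B ∩ C = ∅ ∧ B ∩ closure C = ∅

omit [T2Space X] in
lemma mk_tr {Z A B C : Set X} (hZ : Ct Z) (hA : Ct A) (hB : Ct B) (hC : Ct C)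
    (a : (Z ∩ A).Nonempty) (b : (Z ∩ B).Nonempty) (c : (Z ∩ C).Nonempty)
    (a' : ¬ A ⊆ Z) (b' : ¬ B ⊆ Z) (c' : ¬ C ⊆ Z) (ab : A ∩ B ⊆ Z) (ac : A ∩ C ⊆ Z)
    (bc : B ∩ C ⊆ Z) : Tr (Z ∪ A ∪ B ∪ C) := by
  have k := ((hZ.union hA a.some_mem.1 a.some_mem.2).union hB (Or.inl b.some_mem.1)
    b.some_mem.2).union hC (Or.inl (Or.inl c.some_mem.1)) c.some_mem.2
  have s : ∀ A B : Set X, IsClosed A → A ∩ B ⊆ Z → closure (A \ Z) ∩ (B \ Z) = ∅ :=
    fun A B h l => eq_empty_of_forall_notMem fun z m =>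
      m.2.2 (l ⟨h.closure_subset_iff.2 diff_subset m.1, m.2.1⟩)
  refine ⟨k.1.isCompact, k.2, Z, fun z l => Or.inl (Or.inl (Or.inl l)), hZ.1.isCompact, hZ.2,
    A \ Z, B \ Z, C \ Z, diff_nonempty.2 a', diff_nonempty.2 b', diff_nonempty.2 c',
    by simp [union_diff_distrib], s _ _ hA.1 ab, ?_, s _ _ hA.1 ac, ?_, s _ _ hB.1 bc, ?_⟩ <;>
    rw [inter_comm]
  exacts [s _ _ hB.1 (inter_comm _ _ ▸ ab), s _ _ hC.1 (inter_comm _ _ ▸ ac),
    s _ _ hC.1 (inter_comm _ _ ▸ bc)]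

lemma sepN {P R : Set X} (hP : IsClosed P) (hR : IsClosed R) (d : Disjoint P R) :
    ∃ N M, IsClosed N ∧ IsClosed M ∧ P ⊆ interior N ∧ R ⊆ interior M ∧ Disjoint N M := by
  obtain ⟨u, v, hu, hv, u1, v1, d⟩ := normal_separation hP hR d
  obtain ⟨N, n1, n2, n3⟩ := normal_exists_closure_subset hP hu u1
  obtain ⟨M, m1, m2, m3⟩ := normal_exists_closure_subset hR hv v1
  exact ⟨_, _, isClosed_closure, isClosed_closure, n2.trans (interior_maximal subset_closure n1),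
    m2.trans (interior_maximal subset_closure m1), d.mono n3 m3⟩

lemma stick {Y Z P R N : Set X} (hY : Ct Y) (n : ¬ Y ⊆ Z) {o : X} (ho : o ∈ Y ∩ P)
    (h : Y ∩ Z ⊆ P ∪ R) (hN : IsClosed N) (k : P ⊆ interior N) (d : Disjoint N R) :
    ∃ E ⊆ Y ∩ N, Ct E ∧ o ∈ E ∧ ¬ E ⊆ Z := by
  have m : o ∈ Y ∩ N := ⟨ho.1, interior_subset (k ho.2)⟩
  have s := connectedComponentIn_subset (Y ∩ N) o
  exact ⟨_, s, cc_ct (hY.1.inter hN) m, mem_connectedComponentIn m, fun l => n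
    ((bump hY hN m fun z hz => k ((h ⟨(s hz).1, l hz⟩).resolve_right
      (disjoint_left.1 d (s hz).2))).trans l)⟩

omit [CompactSpace X] [T2Space X] in
lemma split {K : Set X} (hK : IsClosed K) (h : ¬ IsPreconnected K) {o : X} (ho : o ∈ K) :
    ∃ P Q, IsClosed P ∧ IsClosed Q ∧ Disjoint P Q ∧ P ∪ Q = K ∧ o ∈ P ∧ Q.Nonempty := by
  rw [isPreconnected_closed_iff] at h
  push Not at h
  obtain ⟨a, b, ha, hb, c, a1, b1, e⟩ := h
  have d : Disjoint (K ∩ a) (K ∩ b) := disjoint_left.2 fun z l m =>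
    (e.subset ⟨l.1, l.2, m.2⟩ : z ∈ (∅ : Set X))
  have u : K ∩ a ∪ K ∩ b = K := by rw [← inter_union_distrib_left, inter_eq_left.2 c]
  rcases c ho with l | l
  · exact ⟨_, _, hK.inter ha, hK.inter hb, d, u, ⟨ho, l⟩, b1⟩
  · exact ⟨_, _, hK.inter hb, hK.inter ha, d.symm, union_comm _ _ ▸ u, ⟨ho, l⟩, a1⟩

lemma trim {Y Z : Set X} (hY : Ct Y) (hZ : Ct Z) {o : X} (ho : o ∈ Y ∩ Z) (n : ¬ Y ⊆ Z)
    (t : ∀ T ⊆ Y ∪ Z, ¬ Tr T) : ∃ E ⊆ Y, Ct E ∧ o ∈ E ∧ Ct (E ∩ Z) ∧ ¬ E ⊆ Z := by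
  by_cases h : IsPreconnected (Y ∩ Z)
  · exact ⟨Y, subset_rfl, hY, ho.1, ⟨hY.1.inter hZ.1, ⟨o, ho⟩, h⟩, n⟩
  obtain ⟨P, Q, hP, hQ, d, e, o1, ⟨q, hq⟩⟩ := split (hY.1.inter hZ.1) h ho
  have sP : P ⊆ Y ∩ Z := e ▸ subset_union_left
  have sQ : Q ⊆ Y ∩ Z := e ▸ subset_union_right
  obtain ⟨N, M, hN, hM, n1, m1, nm⟩ := sepN hP hQ d
  by_cases k : IsPreconnected P
  · obtain ⟨E, e1, e2, e3, e4⟩ := stick hY n ⟨ho.1, o1⟩ e.symm.subset hN n1
      (nm.mono_right (m1.trans interior_subset))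
    have cP : Ct P := ⟨hP, ⟨o, o1⟩, k⟩
    refine ⟨E ∪ P, union_subset (fun z l => (e1 l).1) fun z l => (sP l).1, e2.union cP e3 o1,
      Or.inr o1, ?_, fun l => e4 (subset_union_left.trans l)⟩
    rwa [show (E ∪ P) ∩ Z = P from subset_antisymm (fun z l => l.1.elim (fun m =>
      (e.symm.subset ⟨(e1 m).1, l.2⟩).resolve_right fun r => disjoint_left.1 nm (e1 m).2
        (interior_subset (m1 r))) id) fun z l => ⟨Or.inr l, (sP l).2⟩]
  obtain ⟨P1, P2, h1, h2, d', rfl, o2, ⟨r, hr⟩⟩ := split hP k o1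
  obtain ⟨N1, N2, hN1, hN2, k1, k2, nn⟩ := sepN h1 h2 d'
  have dq : ∀ A, Disjoint (A ∩ N) Q := fun A =>
    nm.mono inter_subset_right (m1.trans interior_subset)
  obtain ⟨A, a1, a2, a3, a4⟩ := stick (R := P2 ∪ Q) hY n ⟨ho.1, o2⟩ (union_assoc _ _ _ ▸ e.symm.subset)
    (hN1.inter hN) (by rw [interior_inter]; exact subset_inter k1 (subset_union_left.trans n1))
    (disjoint_union_right.2 ⟨nn.mono inter_subset_left (k2.trans interior_subset), dq _⟩)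
  obtain ⟨B, b1, b2, b3, b4⟩ := stick (R := P1 ∪ Q) hY n ⟨(sP (Or.inr hr)).1, hr⟩
    (fun z l => (e.symm.subset l).elim (fun m => m.symm.imp_right Or.inl) fun m => Or.inr (Or.inr m))
    (hN2.inter hN) (by rw [interior_inter]; exact subset_inter k2 (subset_union_right.trans n1))
    (disjoint_union_right.2 ⟨nn.symm.mono inter_subset_left (k1.trans interior_subset), dq _⟩)
  obtain ⟨C, c1, c2, c3, c4⟩ := stick hY n ⟨(sQ hq).1, hq⟩ (union_comm _ _ ▸ e.symm.subset) hM m1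
    (nm.symm.mono_right (n1.trans interior_subset))
  refine (t _ ?_ (mk_tr hZ a2 b2 c2 ⟨o, ho.2, a3⟩ ⟨r, (sP (Or.inr hr)).2, b3⟩ ⟨q, (sQ hq).2, c3⟩
    a4 b4 c4 (fun z l => (disjoint_left.1 nn (a1 l.1).2.1 (b1 l.2).2.1).elim)
    (fun z l => (disjoint_left.1 nm (a1 l.1).2.2 (c1 l.2).2).elim)
    fun z l => (disjoint_left.1 nm (b1 l.1).2.2 (c1 l.2).2).elim)).elim
  rintro z (((l | l) | l) | l)
  exacts [Or.inr l, Or.inl (a1 l).1, Or.inl (b1 l).1, Or.inl (c1 l).1]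

lemma weak {W A B C : Set X} (t : ∀ T ⊆ W, ¬ Tr T) (hA : Ct A) (hB : Ct B) (hC : Ct C)
    (a : A ⊆ W) (b : B ⊆ W) (c : C ⊆ W) {o : X} (oa : o ∈ A) (ob : o ∈ B) (oc : o ∈ C) :
    A ⊆ B ∪ C ∨ B ⊆ A ∪ C ∨ C ⊆ A ∪ B := by
  by_contra n
  push Not at n
  obtain ⟨A', a1, a2, a3, a4, a5⟩ := trim hA (hB.union hC ob oc) ⟨oa, Or.inl ob⟩ n.1
    fun T l => t T (l.trans (union_subset a (union_subset b c)))
  obtain ⟨B', b1, b2, b3, b4, b5⟩ := trim hB (a2.union hC a3 oc) ⟨ob, Or.inl a3⟩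
    (fun l => n.2.1 (l.trans (union_subset_union_left _ a1)))
    fun T l => t T (l.trans (union_subset b (union_subset (a1.trans a) c)))
  obtain ⟨C', c1, c2, c3, c4, c5⟩ := trim hC (a2.union b2 a3 b3) ⟨oc, Or.inl a3⟩
    (fun l => n.2.2 (l.trans (union_subset_union a1 b1)))
    fun T l => t T (l.trans (union_subset c (union_subset (a1.trans a) (b1.trans b))))
  have oz : o ∈ A' ∩ (B ∪ C) := ⟨a3, Or.inl ob⟩
  refine t _ ?_ (mk_tr ((a4.union b4 oz ⟨b3, Or.inl a3⟩).union c4 (Or.inl oz) ⟨c3, Or.inl a3⟩)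
    a2 b2 c2 ⟨o, Or.inl (Or.inl oz), a3⟩ ⟨o, Or.inl (Or.inl oz), b3⟩ ⟨o, Or.inl (Or.inl oz), c3⟩
    (fun l => a5 fun z m => ?_) (fun l => b5 fun z m => ?_) (fun l => c5 fun z m => ?_)
    (fun z l => Or.inl (Or.inl ⟨l.1, Or.inl (b1 l.2)⟩))
    (fun z l => Or.inl (Or.inl ⟨l.1, Or.inr (c1 l.2)⟩))
    fun z l => Or.inl (Or.inr ⟨l.1, Or.inr (c1 l.2)⟩))
  · rintro z (((((l | l) | l) | l) | l) | l)
    exacts [a (a1 l.1), b (b1 l.1), c (c1 l.1), a (a1 l), b (b1 l), c (c1 l)]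
  · rcases l m with (l | l) | l
    exacts [l.2, Or.inl (b1 l.1), Or.inr (c1 l.1)]
  · rcases l m with (l | l) | l
    exacts [Or.inl l.1, l.2, Or.inr (c1 l.1)]
  · rcases l m with (l | l) | l
    exacts [Or.inl l.1, Or.inr l.1, l.2]

lemma fam [SecondCountableTopology X] : ∃ 𝓕 : Set (Set X), 𝓕.Countable ∧ (∀ F ∈ 𝓕, IsClosed F) ∧
    ∀ A G, IsClosed A → IsOpen G → A ⊆ G → ∃ F ∈ 𝓕, A ⊆ interior F ∧ F ⊆ G := by
  refine ⟨(fun t => closure (⋃₀ t)) '' {t | t.Finite ∧ t ⊆ TopologicalSpace.countableBasis X},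
    (countable_setOf_finite_subset (TopologicalSpace.countable_countableBasis X)).image _,
    by rintro _ ⟨t, -, rfl⟩; exact isClosed_closure, fun A G hA hG h => ?_⟩
  obtain ⟨V, v1, v2, v3⟩ := normal_exists_closure_subset hA hG h
  obtain ⟨t, t1, t2, t3⟩ := hA.isCompact.induction_on (p := fun s => ∃ t : Set (Set X),
    (t.Finite ∧ t ⊆ TopologicalSpace.countableBasis X) ∧ s ⊆ ⋃₀ t ∧ ⋃₀ t ⊆ V)
    ⟨∅, by simp, by simp, by simp⟩ (fun _ _ l ⟨t, a, b, c⟩ => ⟨t, a, l.trans b, c⟩)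
    (fun _ _ ⟨t, a, b, c⟩ ⟨u, d, e, f⟩ => ⟨t ∪ u, ⟨a.1.union d.1, union_subset a.2 d.2⟩,
      sUnion_union _ _ ▸ union_subset_union b e, sUnion_union _ _ ▸ union_subset c f⟩)
    fun x hx => by
      obtain ⟨u, u1, u2, u3⟩ := (TopologicalSpace.isBasis_countableBasis X).exists_subset_of_mem_open
        (v2 hx) v1
      exact ⟨u, nhdsWithin_le_nhds ((TopologicalSpace.isOpen_of_mem_countableBasis u1).mem_nhds u2),
        {u}, by simpa, by simp, by simpa⟩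
  exact ⟨_, ⟨t, t1, rfl⟩, t2.trans (interior_maximal subset_closure (isOpen_sUnion fun u hu =>
    TopologicalSpace.isOpen_of_mem_countableBasis (t1.2 hu))), (closure_mono t3).trans v3⟩

end Pool.Agent.H.MP_3ae40e_gt
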