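import Mathlib
import Pool.Agent.H.MP_3ae40e_gt.A

set_option autoImplicit false
open Set Topology Filter

namespace Pool.Agent.H.MP_3ae40e_gt

variable {X : Type} [TopologicalSpace X] [CompactSpace X] [T2Space X]

structure Hy (𝓕 : Set (Set X)) : Prop where
  cnt : 𝓕.Countable
  cl : ∀ F ∈ 𝓕, IsClosed F
  sep : ∀ A G, IsClosed A → IsOpen G → A ⊆ G → ∃ F ∈ 𝓕, A ⊆ interior F ∧ F ⊆ G
  h1 : ∀ A B : Set X, Ct A → (interior A).Nonempty → Ct B → (interior B).Nonempty →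
    (A ∩ B).Nonempty
  h2 : ∀ x p q : X, p ≠ x → q ≠ x → ∃ J, Ct J ∧ p ∈ J ∧ q ∈ J ∧ x ∉ J
  h3 : ∀ 𝒯 : Set (Set X), 𝒯.PairwiseDisjoint id → (∀ T ∈ 𝒯, Tr T) → 𝒯.Countable
  pt : ∀ x : X, IsMeagre {x}

def Th (𝓕 : Set (Set X)) (A : Set X) : Prop :=
  ∃ F ∈ 𝓕, A ⊆ interior F ∧ ∀ a ∈ A, interior (cc F a) = ∅

variable {𝓕 : Set (Set X)}

omit [CompactSpace X] [T2Space X] in
lemma Th.mono {A B : Set X} (h : Th 𝓕 A) (k : B ⊆ A) : Th 𝓕 B :=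
  let ⟨F, a, b, c⟩ := h; ⟨F, a, k.trans b, fun x l => c x (k l)⟩

lemma Hy.meet (H : Hy 𝓕) {A B : Set X} (hA : Ct A) (hB : Ct B) (a : ¬ Th 𝓕 A) (b : ¬ Th 𝓕 B) :
    (A ∩ B).Nonempty := by
  by_contra n
  obtain ⟨u, v, hu, hv, u1, v1, d⟩ := normal_separation hA.1 hB.1
    (disjoint_iff_inter_eq_empty.2 (not_nonempty_iff_eq_empty.1 n))
  obtain ⟨F, f1, f2, f3⟩ := H.sep _ _ hA.1 hu u1
  obtain ⟨G, g1, g2, g3⟩ := H.sep _ _ hB.1 hv v1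
  simp only [Th, not_exists, not_and, not_forall] at a b
  obtain ⟨x, x1, x2⟩ := a F f1 f2
  obtain ⟨y, y1, y2⟩ := b G g1 g2
  obtain ⟨z, z1, z2⟩ := H.h1 _ _ (cc_ct (H.cl F f1) (interior_subset (f2 x1)))
    (nonempty_iff_ne_empty.2 x2) (cc_ct (H.cl G g1) (interior_subset (g2 y1)))
    (nonempty_iff_ne_empty.2 y2)
  exact disjoint_left.1 d (f3 (connectedComponentIn_subset _ _ z1))
    (g3 (connectedComponentIn_subset _ _ z2))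

lemma Hy.ext (H : Hy 𝓕) {A J : Set X} (hA : Ct A) (t : Th 𝓕 A) (hJ : Ct J) {a : X} (a1 : a ∈ A)
    (a2 : a ∈ J) (n : ¬ J ⊆ A) : ∃ E ⊆ J, Ct E ∧ a ∈ E ∧ ¬ E ⊆ A ∧ Th 𝓕 (A ∪ E) := by
  obtain ⟨F, f1, f2, f3⟩ := t
  obtain ⟨N, n1, n2, n3⟩ := H.sep _ _ hA.1 isOpen_interior f2
  obtain ⟨E, e1, e2, e3, e4⟩ := stick (R := ∅) hJ n ⟨a2, a1⟩ (fun z l => Or.inl l.2) (H.cl N n1) n2
    (disjoint_empty _)
  have s : A ∪ E ⊆ interior F := union_subset f2 fun z l => n3 (e1 l).2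
  refine ⟨E, fun z l => (e1 l).1, e2, e3, e4, F, f1, s, fun x hx => ?_⟩
  rw [← f3 a a1, cc, cc, connectedComponentIn_eq ((hA.union e2 a1 e3).2.2.subset_connectedComponentIn
    (Or.inl a1) (s.trans interior_subset) hx)]

def At (𝓕 : Set (Set X)) (p : X) : Prop := ∀ A, Ct A → Th 𝓕 A → p ∈ A → ∀ T ⊆ A, ¬ Tr T

omit [CompactSpace X] [T2Space X] in
lemma cc_mea {F : Set X} (hF : IsClosed F) {a : X} (ha : a ∈ F) (h : interior (cc F a) = ∅) :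
    IsMeagre (cc F a) := IsNowhereDense.isMeagre ((cc_ct hF ha).1.isNowhereDense_iff.2 h)

omit [CompactSpace X] [T2Space X] in
lemma cc_dis {F : Set X} {a b : X} (h : cc F a ≠ cc F b) : Disjoint (cc F a) (cc F b) :=
  disjoint_left.2 fun _ l m => h ((connectedComponentIn_eq l).trans (connectedComponentIn_eq m).symm)

omit [CompactSpace X] [T2Space X] in
lemma Hy.m0 (H : Hy 𝓕) : IsMeagre {p | ¬ At 𝓕 p} := by
  have : ∀ F ∈ 𝓕, {W | ∃ a ∈ F, W = cc F a ∧ interior W = ∅ ∧ ∃ T ⊆ W, Tr T}.Countable :=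
    fun F _ => by
      choose! a a1 a2 a3 T t1 t2 using fun W (h : W ∈ {W | ∃ a ∈ F, W = cc F a ∧ interior W = ∅ ∧
        ∃ T ⊆ W, Tr T}) => h
      have d : ∀ W ∈ _, ∀ V ∈ _, W ≠ V → Disjoint (T W) (T V) := fun W hW V hV e =>
        Disjoint.mono (t1 W hW) (t1 V hV) (by
          rw [a2 W hW, a2 V hV] at e ⊢
          exact cc_dis e)
      refine countable_of_injective_of_countable_image (f := T) (fun W hW V hV e => ?_) (H.h3 _ ?_ ?_)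
      · by_contra n
        have := d W hW V hV n
        rw [e, disjoint_self] at this
        exact (t2 V hV).2.1.1.ne_empty this
      · rintro _ ⟨W, hW, rfl⟩ _ ⟨V, hV, rfl⟩ e
        exact d W hW V hV fun l => e (l ▸ rfl)
      · rintro _ ⟨W, hW, rfl⟩
        exact t2 W hW
  refine (isMeagre_biUnion H.cnt fun F hF => isMeagre_biUnion (this F hF)
    (f := id) ?_).mono fun p hp => ?_
  · rintro _ ⟨a, a1, rfl, a2, -⟩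
    exact cc_mea (H.cl F hF) a1 a2
  · simp only [At, mem_setOf_eq, not_forall, not_not] at hp
    obtain ⟨A, hA, ⟨F, f1, f2, f3⟩, p1, T, t1, t2⟩ := hp
    have s := hA.2.2.subset_connectedComponentIn p1 (f2.trans interior_subset)
    exact mem_biUnion f1 (mem_biUnion ⟨p, interior_subset (f2 p1), rfl, f3 p p1, T, t1.trans s, t2⟩
      (s p1))

lemma three {α : Type} {s : Set α} (h : s.Infinite) :
    ∃ a ∈ s, ∃ b ∈ s, ∃ c ∈ s, a ≠ b ∧ a ≠ c ∧ b ≠ c := by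
  obtain ⟨a, ha⟩ := h.nonempty
  obtain ⟨b, hb⟩ := (h.diff (finite_singleton a)).nonempty
  obtain ⟨c, hc⟩ := (h.diff ((finite_singleton b).insert a)).nonempty
  exact ⟨a, ha, b, hb.1, c, hc.1, fun e => hb.2 e.symm, fun e => hc.2 (Or.inl e.symm),
    fun e => hc.2 (Or.inr e.symm)⟩

def Nb (𝓕 : Set (Set X)) (A : Set X) : Set X :=
  {p | ∃ B, Ct B ∧ Th 𝓕 B ∧ p ∈ B ∧ (B ∩ A).Nonempty}

lemma Hy.nb (H : Hy 𝓕) {A : Set X} (hA : Ct A) (t : Th 𝓕 A) {p : X} (hp : p ∈ A) (a : At 𝓕 p) :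
    IsMeagre (Nb 𝓕 A) := by
  have : ∀ F ∈ 𝓕, {W | ∃ a ∈ A ∩ F, W = cc F a ∧ interior W = ∅ ∧ ¬ W ⊆ A}.Finite := fun F hF => by
    by_contra n
    obtain ⟨_, ⟨x, x1, rfl, -, x2⟩, _, ⟨y, y1, rfl, -, y2⟩, _, ⟨z, z1, rfl, -, z2⟩, xy, xz, yz⟩ :=
      three n
    have c := fun {a} (h : a ∈ F) => cc_ct (H.cl F hF) h
    have m := fun {a} (h : a ∈ F) => mem_connectedComponentIn h
    obtain ⟨B, b1, b2, b3, b4, b5⟩ := H.ext hA t (c x1.2) x1.1 (m x1.2) x2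
    have u1 := hA.union b2 x1.1 b3
    obtain ⟨C, c1, c2, c3, c4, c5⟩ := H.ext u1 b5 (c y1.2) (Or.inl y1.1) (m y1.2) fun l => y2
      fun w hw => (l hw).resolve_right fun r => disjoint_left.1 (cc_dis xy) (b1 r) hw
    have u2 := u1.union c2 (Or.inl y1.1) c3
    obtain ⟨D, d1, d2, d3, d4, d5⟩ := H.ext u2 c5 (c z1.2) (Or.inl (Or.inl z1.1)) (m z1.2)
      fun l => z2 fun w hw => ((l hw).resolve_right fun r => disjoint_left.1 (cc_dis yz) (c1 r)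
        hw).resolve_right fun r => disjoint_left.1 (cc_dis xz) (b1 r) hw
    exact a _ (u2.union d2 (Or.inl (Or.inl z1.1)) d3) d5 (Or.inl (Or.inl (Or.inl hp))) _ subset_rfl
      (mk_tr hA b2 c2 d2 ⟨x, x1.1, b3⟩ ⟨y, y1.1, c3⟩ ⟨z, z1.1, d3⟩ b4
      (fun l => c4 (l.trans subset_union_left))
      (fun l => d4 (l.trans (subset_union_left.trans subset_union_left)))
      (fun w l => (disjoint_left.1 (cc_dis xy) (b1 l.1) (c1 l.2)).elim)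
      (fun w l => (disjoint_left.1 (cc_dis xz) (b1 l.1) (d1 l.2)).elim)
      fun w l => (disjoint_left.1 (cc_dis yz) (c1 l.1) (d1 l.2)).elim)
  obtain ⟨G, g1, g2, g3⟩ := t
  refine (((cc_mea (H.cl G g1) (interior_subset (g2 hp)) (g3 p hp))).union (isMeagre_biUnion H.cnt
    fun F hF => isMeagre_biUnion (this F hF).countable (f := id) ?_)).mono ?_
  · rintro _ ⟨a, a1, rfl, a2, -⟩
    exact cc_mea (H.cl F hF) a1.2 a2
  · rintro x ⟨B, hB, ⟨F, f1, f2, f3⟩, x1, y, y1, y2⟩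
    have s := hB.2.2.subset_connectedComponentIn y1 (f2.trans interior_subset)
    by_cases e : cc F y ⊆ A
    · exact Or.inl (hA.2.2.subset_connectedComponentIn hp (g2.trans interior_subset) (e (s x1)))
    · exact Or.inr (mem_biUnion f1 (mem_biUnion
        ⟨y, ⟨y2, interior_subset (f2 y1)⟩, rfl, f3 y y1, e⟩ (s x1)))

structure Gd (𝓕 : Set (Set X)) (p : X) : Prop where
  a : At 𝓕 p
  t : Th 𝓕 {p}
  u : ∀ A B, Ct A → Th 𝓕 A → p ∈ A → Ct B → Th 𝓕 B → p ∈ B → Th 𝓕 (A ∪ B)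

lemma Hy.gd (H : Hy 𝓕) : IsMeagre {p | ¬ Gd 𝓕 p} := by
  have m1 : IsMeagre {p | ¬ Th 𝓕 {p}} := by
    rcases eq_empty_or_nonempty {p | ¬ Th 𝓕 {p}} with e | ⟨p, hp⟩
    · rw [e]; exact .empty
    · refine (H.pt p).mono fun x hx => ?_
      obtain ⟨_, rfl, e⟩ := H.meet (ct_one x) (ct_one p) hx hp
      exact e
  let S := {p | At 𝓕 p ∧ ∃ A B, Ct A ∧ Th 𝓕 A ∧ p ∈ A ∧ Ct B ∧ Th 𝓕 B ∧ p ∈ B ∧ ¬ Th 𝓕 (A ∪ B)}
  have m2 : IsMeagre S := by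
    rcases eq_empty_or_nonempty S with e | ⟨p, a, A, B, a1, a2, a3, b1, b2, b3, n⟩
    · rw [e]; exact .empty
    · refine ((H.nb a1 a2 a3 a).union (H.nb b1 b2 b3 a)).mono ?_
      rintro x ⟨-, C, D, c1, c2, c3, d1, d2, d3, k⟩
      obtain ⟨y, y1 | y1, y2 | y2⟩ := H.meet (c1.union d1 c3 d3) (a1.union b1 a3 b3) k n
      exacts [Or.inl ⟨C, c1, c2, c3, y, y1, y2⟩, Or.inr ⟨C, c1, c2, c3, y, y1, y2⟩,
        Or.inl ⟨D, d1, d2, d3, y, y1, y2⟩, Or.inr ⟨D, d1, d2, d3, y, y1, y2⟩]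
  refine ((H.m0.union m1).union m2).mono fun p hp => ?_
  by_contra n
  simp only [mem_union, not_or, mem_setOf_eq, not_not] at n
  exact hp ⟨n.1.1, n.1.2, fun A B a1 a2 a3 b1 b2 b3 => by_contra fun k =>
    n.2 ⟨n.1.1, A, B, a1, a2, a3, b1, b2, b3, k⟩⟩

lemma Hy.out (H : Hy 𝓕) {p : X} (g : Gd 𝓕 p) {x y : X} (h : y ≠ x) :
    ∃ J, Ct J ∧ y ∈ J ∧ x ∉ J ∧ ∀ A, Ct A → Th 𝓕 A → p ∈ A → ¬ J ⊆ A := by
  obtain ⟨q, hq⟩ : ∃ q, q ∉ Nb 𝓕 {p} ∪ {x} := by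
    by_contra n
    push Not at n
    exact not_isMeagre_of_isOpen isOpen_univ ⟨p, trivial⟩
      (((H.nb (ct_one p) g.t rfl g.a).union (H.pt x)).mono fun z _ => n z)
  obtain ⟨J, j1, j2, j3, j4⟩ := H.h2 x y q h fun e => hq (Or.inr e)
  exact ⟨J, j1, j2, j4, fun A a1 a2 a3 l => hq (Or.inl ⟨A, a1, a2, l j3, p, a3, rfl⟩)⟩

lemma Hy.hu (H : Hy 𝓕) {p : X} (g : Gd 𝓕 p) {W A B : Set X} (hW : Ct W) (t : Th 𝓕 W) (hp : p ∈ W)
    (hA : Ct A) (hB : Ct B) (a : A ⊆ W) (b : B ⊆ W) {o : X} (oa : o ∈ A) (ob : o ∈ B) :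
    Ct (A ∩ B) := by
  refine ⟨hA.1.inter hB.1, ⟨o, oa, ob⟩, by_contra fun n => ?_⟩
  obtain ⟨P, Q, hP, hQ, d, e, o1, q, hq⟩ := split (hA.1.inter hB.1) n ⟨oa, ob⟩
  have sP : P ⊆ A ∩ B := e ▸ subset_union_left
  have sQ : Q ⊆ A ∩ B := e ▸ subset_union_right
  obtain ⟨I, i1, i2, i3⟩ := irr hP hQ ⟨hB, ⟨o, ob, o1⟩, q, (sQ hq).2, hq⟩
  obtain ⟨u, u1, u2⟩ := i2.2.1
  obtain ⟨v, v1, v2⟩ := i2.2.2
  obtain ⟨K, k1, k2, k3⟩ := irr (hP.inter i2.1.1) (hQ.inter i2.1.1)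
    ⟨hA, ⟨u, (sP u2).1, u2, u1⟩, v, (sQ v2).1, v2, v1⟩
  obtain ⟨y, y1, y2, y3⟩ := k2.2.1
  obtain ⟨x, x1, x2, x3⟩ := k2.2.2
  obtain ⟨J, j1, j2, j3, j4⟩ := H.out g (x := x) (y := y) fun l => disjoint_left.1 d y2 (l ▸ x2)
  obtain ⟨E, e1, e2, e3, e4, e5⟩ := H.ext hW t j1 (a (k1 y1)) j2 (j4 W hW t hp)
  rcases weak (g.a _ (hW.union e2 (a (k1 y1)) e3) e5 (Or.inl hp)) k2.1 i2.1 e2
    (fun z l => Or.inl (a (k1 l))) (fun z l => Or.inl (b (i1 l))) subset_union_right y1 y3 e3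
    with l | l | l
  · refine j3 (e1 (e2.1.closure_subset_iff.2 (fun z m => (l m.1).resolve_left fun r => m.2 ?_)
      (irr_dense (hP.inter i2.1.1) (hQ.inter i2.1.1) (d.mono inter_subset_left inter_subset_left)
        k2 k3 x1)))
    exact (e.symm.subset ⟨k1 m.1, i1 r⟩).imp (⟨·, r⟩) (⟨·, r⟩)
  · exact j3 (e1 (e2.1.closure_subset_iff.2 (fun z m => (l m.1).resolve_left fun r =>
      m.2 (e.symm.subset ⟨k1 r, i1 m.1⟩)) (irr_dense hP hQ d i2 i3 x3)))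
  · exact e4 (l.trans (union_subset (k1.trans a) (i1.trans b)))

lemma Hy.two (H : Hy 𝓕) {p : X} (g : Gd 𝓕 p) : ∃ D E, Ct D ∧ Ct E ∧ Th 𝓕 D ∧ Th 𝓕 E ∧ p ∈ D ∧
    p ∈ E ∧ ¬ D ⊆ {p} ∧ ¬ E ⊆ {p} ∧ D ∩ E ⊆ {p} := by
  obtain ⟨F, f1, f2, f3⟩ := g.t
  obtain ⟨N, n1, n2, n3⟩ := H.sep _ _ isClosed_singleton isOpen_interior f2
  have pN := interior_subset (n2 rfl)
  have hW := cc_ct (H.cl N n1) pN
  have pW := mem_connectedComponentIn pN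
  have tW : Th 𝓕 (cc N p) := ⟨F, f1, (connectedComponentIn_subset _ _).trans n3, fun a ha => by
    rw [← f3 p rfl, cc, cc, connectedComponentIn_eq (connectedComponentIn_mono p
      (n3.trans interior_subset) ha)]⟩
  let Mn : Set X → Prop := fun D => D ⊆ cc N p ∧ Mt {p} (interior N)ᶜ D ∧
    ∀ I ⊆ D, Mt {p} (interior N)ᶜ I → D ⊆ I
  have mp : ∀ D, Mn D → p ∈ D := fun D h => let ⟨_, a, b⟩ := h.2.1.2.1; b ▸ a
  have nt : ∀ D, Mn D → ¬ D ⊆ {p} := fun D h l => let ⟨_, a, b⟩ := h.2.1.2.2; b (n2 (l a))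
  have ex : ∀ x, p ≠ x → ∃ D, Mn D ∧ x ∉ D := fun x h => by
    obtain ⟨J, j1, j2, j3, j4⟩ := H.out g h
    have s := connectedComponentIn_mono p (inter_subset_right (s := J) (t := N))
    obtain ⟨D, d1, d2, d3⟩ := irr isClosed_singleton isOpen_interior.isClosed_compl
      (J := cc (J ∩ N) p) ⟨cc_ct (j1.1.inter (H.cl N n1)) ⟨j2, pN⟩,
      ⟨p, mem_connectedComponentIn ⟨j2, pN⟩, rfl⟩, by_contra fun n => j4 _ hW tW pW
        ((bump j1 (H.cl N n1) ⟨j2, pN⟩ fun z l => by_contra fun m => n ⟨z, l, m⟩).trans s)⟩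
    exact ⟨D, ⟨d1.trans s, d2, d3⟩, fun l => j3 (connectedComponentIn_subset _ _ (d1 l)).1⟩
  have key : ∀ A B C, Mn A → Mn B → Mn C → A ⊆ B ∪ C → A = B ∨ A = C := fun A B C a b c l => by
    have : ∀ B, Mn B → ∀ z ∈ A, z ∉ interior N → z ∈ B → A = B := fun B b z z1 z2 z3 => by
      have m : Mt {p} (interior N)ᶜ (A ∩ B) := ⟨H.hu g hW tW pW a.2.1.1 b.2.1.1 a.1 b.1 (mp A a)
        (mp B b), ⟨p, ⟨mp A a, mp B b⟩, rfl⟩, z, ⟨z1, z3⟩, z2⟩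
      exact subset_antisymm ((a.2.2 _ inter_subset_left m).trans inter_subset_right)
        ((b.2.2 _ inter_subset_right m).trans inter_subset_left)
    obtain ⟨z, z1, z2⟩ := a.2.1.2.2
    exact (l z1).imp (this B b z z1 z2) (this C c z z1 z2)
  obtain ⟨x, hx⟩ : ∃ x, p ≠ x := by
    by_contra n
    push Not at n
    exact not_isMeagre_of_isOpen isOpen_univ ⟨p, trivial⟩ ((H.pt p).mono fun z _ => (n z).symm)
  obtain ⟨D, d, -⟩ := ex x hx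
  obtain ⟨y, y1, y2⟩ := not_subset.1 (nt D d)
  obtain ⟨E, e, y3⟩ := ex y (Ne.symm y2)
  refine ⟨D, E, d.2.1.1, e.2.1.1, tW.mono d.1, tW.mono e.1, mp D d, mp E e, nt D d, nt E e,
    fun z l => by_contra fun n => ?_⟩
  obtain ⟨G, k, z3⟩ := ex z (Ne.symm n)
  have n1 : D ≠ E := fun r => y3 (r ▸ y1)
  have n2 : D ≠ G := fun r => z3 (r ▸ l.1)
  have n3 : E ≠ G := fun r => z3 (r ▸ l.2)
  rcases weak (g.a _ hW tW pW) d.2.1.1 e.2.1.1 k.2.1.1 d.1 e.1 k.1 (mp D d) (mp E e) (mp G k)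
    with r | r | r
  exacts [(key _ _ _ d e k r).elim n1 n2, (key _ _ _ e d k r).elim n1.symm n3,
    (key _ _ _ k d e r).elim n2.symm n3.symm]

lemma Hy.cmp (H : Hy 𝓕) {p : X} (g : Gd 𝓕 p) {A B S : Set X} (hA : Ct A) (t : Th 𝓕 A) (pA : p ∈ A)
    (hB : Ct B) (pB : p ∈ B) (hS : Ct S) (tS : Th 𝓕 S) (pS : p ∈ S) (n : ¬ S ⊆ {p})
    (a : S ∩ A ⊆ {p}) (b : S ∩ B ⊆ {p}) : A ⊆ B ∨ B ⊆ A := by
  refine or_iff_not_imp_right.2 fun k => ?_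
  have u := hA.union hS pA pS
  obtain ⟨E, e1, e2, e3, e4, e5⟩ := H.ext u (g.u _ _ hA t pA hS tS pS) hB (Or.inl pA) pB
    fun l => k fun z m => (l m).elim id fun r => b ⟨r, m⟩ ▸ pA
  rcases weak (g.a _ (u.union e2 (Or.inl pA) e3) e5 (Or.inl (Or.inl pA))) hA e2 hS
    (fun z l => Or.inl (Or.inl l)) subset_union_right (fun z l => Or.inl (Or.inr l)) pA e3 pS
    with l | l | l
  · exact fun z m => (l m).elim (e1 ·) fun r => a ⟨r, m⟩ ▸ pB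
  · exact (e4 l).elim
  · exact (n fun z m => (l m).elim (fun r => a ⟨m, r⟩) fun r => b ⟨m, e1 r⟩).elim

lemma Hy.side (H : Hy 𝓕) {p : X} (g : Gd 𝓕 p) {D E : Set X} (hD : Ct D) (hE : Ct E) (tE : Th 𝓕 E)
    (pD : p ∈ D) (pE : p ∈ E) (nD : ¬ D ⊆ {p}) (nE : ¬ E ⊆ {p}) (de : D ∩ E ⊆ {p}) :
    ∃ J S U, IsClosed J ∧ p ∉ J ∧ Ct S ∧ p ∈ S ∧ S ⊆ E ∧ ¬ S ⊆ {p} ∧ Ct (closure U) ∧
      ¬ Th 𝓕 (closure U) ∧ closure U ⊆ J ∪ D ∧
      ∀ x ∈ U, ∃ A, Ct A ∧ Th 𝓕 A ∧ p ∈ A ∧ x ∈ A ∧ S ∩ A ⊆ {p} := by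
  obtain ⟨y, y1, y2⟩ := not_subset.1 nD
  obtain ⟨J, j1, j2, j3, j4⟩ := H.out g y2
  obtain ⟨N, n1, n2, n3⟩ := H.sep {p} _ isClosed_singleton j1.1.isOpen_compl
    (singleton_subset_iff.2 j3)
  obtain ⟨S, s1, s2, s3, s4⟩ := stick (R := ∅) (P := {p}) hE nE ⟨pE, rfl⟩ (fun z l => Or.inl l.2)
    (H.cl N n1) n2 (disjoint_empty _)
  have hB := j1.union hD j2 y1
  have sB : S ∩ (J ∪ D) ⊆ {p} := fun z l => l.2.elim (fun r => (n3 (s1 l.1).2 r).elim)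
    fun r => de ⟨r, (s1 l.1).1⟩
  let 𝒞 := {A | Ct A ∧ Th 𝓕 A ∧ p ∈ A ∧ A ⊆ J ∪ D}
  have c0 : {p} ∈ 𝒞 := ⟨ct_one p, g.t, rfl, singleton_subset_iff.2 (Or.inr pD)⟩
  have pU : p ∈ ⋃₀ 𝒞 := ⟨_, c0, rfl⟩
  have cU : Ct (closure (⋃₀ 𝒞)) := ⟨isClosed_closure, IsConnected.closure ⟨⟨p, pU⟩,
    isPreconnected_sUnion p _ (fun A h => h.2.2.1) fun A h => h.1.2.2⟩⟩
  have sU : closure (⋃₀ 𝒞) ⊆ J ∪ D := hB.1.closure_subset_iff.2 (sUnion_subset fun A h => h.2.2.2)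
  refine ⟨J, S, ⋃₀ 𝒞, j1.1, j3, s2, s3, fun z l => (s1 l).1, s4, cU, fun t => ?_, sU,
    fun x ⟨A, a, hx⟩ => ⟨A, a.1, a.2.1, a.2.2.1, hx, (inter_subset_inter_right _ a.2.2.2).trans sB⟩⟩
  obtain ⟨G, e1, e2, e3, e4, e5⟩ := H.ext cU t hB (subset_closure pU) (Or.inr pD)
    fun l => j4 _ cU t (subset_closure pU) (subset_union_left.trans l)
  exact e4 fun z l => subset_closure ⟨G, ⟨e2, e5.mono subset_union_right, e3, e1⟩, l⟩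

lemma Hy.fp (H : Hy 𝓕) {p : X} (g : Gd 𝓕 p) : ∃ N ∈ 𝓕, ∃ F ∈ 𝓕, ∃ G ∈ 𝓕, ∃ L M D : Set X,
    Disjoint F G ∧ Ct L ∧ ¬ Th 𝓕 L ∧ Ct M ∧ ¬ Th 𝓕 M ∧ Ct D ∧ Th 𝓕 D ∧ p ∈ D ∧
      L \ interior N ⊆ F ∧ M \ interior N ⊆ G ∧ L ∩ N ⊆ D ∧ M ∩ N ⊆ D := by
  obtain ⟨D, E, hD, hE, tD, tE, pD, pE, nD, nE, de⟩ := H.two g
  obtain ⟨J, S, U, j1, j2, s1, s2, s3, s4, u1, u2, u3, u4⟩ := H.side g hD hE tE pD pE nD nE de
  obtain ⟨K, R, V, k1, k2, r1, r2, r3, r4, v1, v2, v3, v4⟩ := H.side g hE hD tD pE pD nE nD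
    (inter_comm _ _ ▸ de)
  have sr : S ∩ R ⊆ {p} := fun z l => de ⟨r3 l.2, s3 l.1⟩
  have key : closure U ∩ closure V ⊆ {p} := fun x hx => by_contra fun n => by
    obtain ⟨I, i1, i2, i3, i4⟩ := H.out g (Ne.symm n)
    obtain ⟨a, a1, a2⟩ := not_subset.1 fun l : U ⊆ I => i3 (i1.1.closure_subset_iff.2 l hx.1)
    obtain ⟨b, b1, b2⟩ := not_subset.1 fun l : V ⊆ I => i3 (i1.1.closure_subset_iff.2 l hx.2)
    obtain ⟨A, hA, tA, pA, aA, sA⟩ := u4 a a1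
    obtain ⟨B, hB, tB, pB, bB, sB⟩ := v4 b b1
    have hW := hA.union hB pA pB
    have tW := g.u _ _ hA tA pA hB tB pB
    have hC := H.hu g hW tW (Or.inl pA) hA hB subset_union_left subset_union_right pA pB
    have ab : A ∩ B ⊆ {p} := by
      rcases H.cmp g hC (tA.mono inter_subset_left) ⟨pA, pB⟩ r1 r2 s1 (tE.mono s3) s2 s4
        (fun z l => sA ⟨l.1, l.2.1⟩) sr with l | l
      · exact fun z m => sB ⟨l m, m.2⟩
      · exact (r4 fun z m => sB ⟨m, (l m).2⟩).elim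
    obtain ⟨G, e1, e2, e3, e4, e5⟩ := H.ext hW tW i1 (Or.inl pA) i2 (i4 _ hW tW (Or.inl pA))
    rcases weak (g.a _ (hW.union e2 (Or.inl pA) e3) e5 (Or.inl (Or.inl pA))) hA hB e2
      (fun z l => Or.inl (Or.inl l)) (fun z l => Or.inl (Or.inr l)) subset_union_right pA pB e3
      with l | l | l
    · exact a2 ((l aA).elim (fun r => ab ⟨aA, r⟩ ▸ i2) (e1 ·))
    · exact b2 ((l bB).elim (fun r => ab ⟨r, bB⟩ ▸ i2) (e1 ·))
    · exact e4 l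
  obtain ⟨N, n1, n2, n3⟩ := H.sep {p} _ isClosed_singleton (j1.union k1).isOpen_compl
    (singleton_subset_iff.2 fun l => l.elim j2 k2)
  obtain ⟨u, v, hu, hv, a, b, d⟩ := normal_separation (u1.1.sdiff isOpen_interior)
    (v1.1.sdiff isOpen_interior) (disjoint_left.2 fun z l m => l.2 (n2 (key ⟨l.1, m.1⟩)))
  obtain ⟨F, f1, f2, f3⟩ := H.sep _ _ (u1.1.sdiff isOpen_interior) hu a
  obtain ⟨G, g1, g2, g3⟩ := H.sep _ _ (v1.1.sdiff isOpen_interior) hv b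
  exact ⟨N, n1, F, f1, G, g1, _, _, _, d.mono f3 g3, u1, u2, v1, v2, hD.union hE pD pE,
    g.u _ _ hD tD pD hE tE pE, Or.inl pD, f2.trans interior_subset, g2.trans interior_subset,
    fun z l => Or.inl ((u3 l.1).resolve_left fun r => n3 l.2 (Or.inl r)),
    fun z l => Or.inr ((v3 l.1).resolve_left fun r => n3 l.2 (Or.inr r))⟩

lemma Hy.no [Nonempty X] (H : Hy 𝓕) : False := by
  let S : Set X → Set X → Set X → Set X := fun N F G => {p | Gd 𝓕 p ∧ ∃ L M D : Set X,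
    Disjoint F G ∧ Ct L ∧ ¬ Th 𝓕 L ∧ Ct M ∧ ¬ Th 𝓕 M ∧ Ct D ∧ Th 𝓕 D ∧ p ∈ D ∧
      L \ interior N ⊆ F ∧ M \ interior N ⊆ G ∧ L ∩ N ⊆ D ∧ M ∩ N ⊆ D}
  have : ∀ N F G, IsMeagre (S N F G) := fun N F G => by
    rcases eq_empty_or_nonempty (S N F G) with e | ⟨p, g, L, -, D, d, l1, l2, -, -, d1, d2, d3, l3,
      -, l4, -⟩
    · rw [e]; exact .empty
    refine (H.nb d1 d2 d3 g.a).mono ?_
    rintro x ⟨-, -, M, E, -, -, -, m1, m2, e1, e2, e3, -, m3, -, m4⟩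
    obtain ⟨y, y1, y2⟩ := H.meet l1 m1 l2 m2
    have : y ∈ N := interior_subset (by_contra fun n => disjoint_left.1 d (l3 ⟨y1, n⟩) (m3 ⟨y2, n⟩))
    exact ⟨E, e1, e2, e3, y, m4 ⟨y2, this⟩, l4 ⟨y1, this⟩⟩
  refine not_isMeagre_of_isOpen isOpen_univ univ_nonempty ((H.gd.union (isMeagre_biUnion H.cnt
    fun N _ => isMeagre_biUnion H.cnt fun F _ => isMeagre_biUnion H.cnt
      fun G _ => this N F G)).mono fun p _ => or_iff_not_imp_left.2 fun g => ?_)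
  obtain ⟨N, n, F, f, G, k, l⟩ := H.fp (not_not.1 g)
  exact mem_biUnion n (mem_biUnion f (mem_biUnion k ⟨not_not.1 g, l⟩))

end Pool.Agent.H.MP_3ae40e_gt
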